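import Pool.Agent.W951.BP.Stm

set_option autoImplicit false

namespace Pool.Agent.W596.BP

open Finset Classical
open Pool.Agent.W951.BP

lemma card_pi_mem {D : Type*} [Fintype D] [DecidableEq D] {m : ℕ} (hm : 0 < m) (F : Finset D)
    (W : Finset (Fin m)) :
    ((univ.filter fun c : D → Fin m => ∀ d ∈ F, c d ∈ W).card : ℝ) =
      (m : ℝ) ^ (Fintype.card D) * ((W.card : ℝ) / m) ^ F.card := by
  have h1 : (univ.filter fun c : D → Fin m => ∀ d ∈ F, c d ∈ W) =
      Fintype.piFinset (fun d => if d ∈ F then W else univ) := by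
    ext c
    simp only [mem_filter, mem_univ, true_and, Fintype.mem_piFinset]
    constructor
    · intro h d
      by_cases hd : d ∈ F
      · simp [hd, h d hd]
      · simp [hd]
    · intro h d hd
      have := h d
      simpa [hd] using this
  rw [h1, Fintype.card_piFinset]
  push_cast
  have hm0 : (m : ℝ) ≠ 0 := by exact_mod_cast hm.ne'
  have h2 : ∀ d : D, (((if d ∈ F then W else univ : Finset (Fin m)).card : ℕ) : ℝ) =
      m * (if d ∈ F then (W.card : ℝ) / m else 1) := by
    intro d
    split_ifs
    · field_simp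
    · simp
  simp_rw [h2]
  rw [Finset.prod_mul_distrib, Finset.prod_const, Finset.prod_ite_mem, univ_inter,
    Finset.prod_const, Finset.card_univ]

lemma card_pi_all {α : Type*} [Fintype α] (n : ℕ) (P : α → Prop) [DecidablePred P]
    [DecidablePred fun f : Fin n → α => ∀ i, P (f i)] :
    (univ.filter fun f : Fin n → α => ∀ i, P (f i)).card = (univ.filter P).card ^ n := by
  have h1 : (univ.filter fun f : Fin n → α => ∀ i, P (f i)) =
      Fintype.piFinset (fun _ : Fin n => univ.filter P) := by
    ext c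
    simp [Fintype.mem_piFinset]
  rw [h1, Fintype.card_piFinset_const]

lemma card_pair {D : Type*} [Fintype D] [DecidableEq D] {v : ℕ} (hv : 0 < v) (d d' : D) (hd : d ≠ d') :
    ((univ.filter fun h : D → Fin v => h d = h d').card : ℝ) = (v : ℝ) ^ (Fintype.card D) / v := by
  have hv0 : (v : ℝ) ≠ 0 := by exact_mod_cast hv.ne'
  have h1 := Finset.card_eq_sum_card_fiberwise (f := fun h : D → Fin v => h d)
    (s := univ.filter fun h : D → Fin v => h d = h d') (t := univ) (fun x _ => mem_univ _)
  rw [h1]
  push_cast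
  have h2 : ∀ c : Fin v, ((((univ.filter fun h : D → Fin v => h d = h d').filter
      (fun h => h d = c)).card : ℕ) : ℝ) = (v : ℝ) ^ (Fintype.card D) * (1 / v) ^ 2 := by
    intro c
    have e : ((univ.filter fun h : D → Fin v => h d = h d').filter (fun h => h d = c)) =
        (univ.filter fun h : D → Fin v => ∀ e ∈ ({d, d'} : Finset D), h e ∈ ({c} : Finset (Fin v))) := by
      ext h
      simp only [mem_filter, mem_univ, true_and, mem_insert, mem_singleton, forall_eq_or_imp,
        forall_eq]
      constructor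
      · rintro ⟨h1, h2⟩
        exact ⟨h2, by rw [← h1]; exact h2⟩
      · rintro ⟨h1, h2⟩
        exact ⟨by rw [h1, h2], h1⟩
    rw [e, card_pi_mem hv, Finset.card_pair hd, Finset.card_singleton]
    norm_num
  simp_rw [h2]
  rw [Finset.sum_const, Finset.card_univ, Fintype.card_fin, nsmul_eq_mul]
  field_simp

lemma card_pair2 {v : ℕ} (hv : 0 < v) (a b a' b' : Fin v) :
    ((univ.filter fun h : Fin v → Fin v → Fin v => h a b = h a' b').card : ℝ) =
      (v : ℝ) ^ (v * v) * (if a = a' ∧ b = b' then 1 else 1 / (v : ℝ)) := by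
  have h1 : (univ.filter fun h : Fin v → Fin v → Fin v => h a b = h a' b').card =
      (univ.filter fun h : Fin v × Fin v → Fin v => h (a, b) = h (a', b')).card := by
    apply Finset.card_equiv (Equiv.curry (Fin v) (Fin v) (Fin v)).symm
    intro h
    simp [Function.uncurry]
  rw [h1]
  split_ifs with hab
  · obtain ⟨rfl, rfl⟩ := hab
    simp
  · rw [card_pair hv]
    · simp [Fintype.card_prod]
      ring
    · intro h
      simp only [Prod.mk.injEq] at h
      exact hab h

/-- number of agreements -/
noncomputable def agr {T v : ℕ} (x x' : Fin T → Fin v) : Finset (Fin T) :=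
  univ.filter (fun t => x t = x' t)

lemma card_dig {T v : ℕ} (hT : 0 < T) (hv : 0 < v) (x x' : Fin T → Fin v) :
    ((univ.filter fun a : (Fin T × Fin T) × (Fin v → Fin v → Fin v) =>
      a.2 (x a.1.1) (x a.1.2) = a.2 (x' a.1.1) (x' a.1.2)).card : ℝ) =
      (Fintype.card ((Fin T × Fin T) × (Fin v → Fin v → Fin v)) : ℝ) * qq T v (agr x x').card := by
  have hv0 : (v : ℝ) ≠ 0 := by exact_mod_cast hv.ne'
  have hT0 : (T : ℝ) ≠ 0 := by exact_mod_cast hT.ne'
  rw [Finset.natCast_card_filter, Fintype.sum_prod_type]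
  have h2 : ∀ pq : Fin T × Fin T, (∑ h : Fin v → Fin v → Fin v,
      (if h (x pq.1) (x pq.2) = h (x' pq.1) (x' pq.2) then (1 : ℝ) else 0)) =
      (v : ℝ) ^ (v * v) * (1 / v + (if x pq.1 = x' pq.1 then 1 else 0) *
        (if x pq.2 = x' pq.2 then 1 else 0) * (1 - 1 / v)) := by
    intro pq
    rw [← Finset.natCast_card_filter, card_pair2 hv]
    by_cases h1 : x pq.1 = x' pq.1
    · by_cases h2 : x pq.2 = x' pq.2
      · simp [h1, h2]
      · simp [h2]
    · simp [h1]
  simp_rw [h2]
  rw [← Finset.mul_sum, Finset.sum_add_distrib, ← Finset.sum_mul]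
  have h3 : ∑ p : Fin T, ∑ q : Fin T, ((if x p = x' p then (1 : ℝ) else 0) *
        (if x q = x' q then 1 else 0)) = ((agr x x').card : ℝ) ^ 2 := by
    rw [← Finset.sum_mul_sum, sq]
    have : ∑ p : Fin T, (if x p = x' p then (1 : ℝ) else 0) = ((agr x x').card : ℝ) := by
      unfold agr
      rw [Finset.natCast_card_filter]
    rw [this]
  have h4 : ∑ i : Fin T × Fin T, ((if x i.1 = x' i.1 then (1 : ℝ) else 0) *
        (if x i.2 = x' i.2 then 1 else 0)) = ((agr x x').card : ℝ) ^ 2 := by
    rw [Fintype.sum_prod_type]; exact h3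
  rw [h4]
  unfold qq
  simp only [Finset.sum_const, Finset.card_univ, Fintype.card_prod, Fintype.card_fin,
    Fintype.card_pi, Finset.prod_const, nsmul_eq_mul]
  push_cast
  field_simp
  ring


lemma card_both {T v k m : ℕ} (hT : 0 < T) (hv : 0 < v) (hm : 0 < m) (u : Fin m → Bool)
    (x x' : Fin T → Fin v) :
    ((univ.filter fun β : Sc T v k m =>
      u (β.2 (digit β.1 x)) = true ∧ u (β.2 (digit β.1 x')) = true).card : ℝ) =
      (Fintype.card (Sc T v k m) : ℝ) * (((wt u : ℝ) / m) ^ 2 +
        qq T v (agr x x').card ^ k * ((wt u : ℝ) / m - ((wt u : ℝ) / m) ^ 2)) := by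
  rw [Finset.natCast_card_filter, Fintype.sum_prod_type]
  have h2 : ∀ β : Fin k → (Fin T × Fin T) × (Fin v → Fin v → Fin v),
      (∑ c : (Fin k → Fin v) → Fin m,
        (if u (c (digit β x)) = true ∧ u (c (digit β x')) = true then (1 : ℝ) else 0)) =
      (m : ℝ) ^ (Fintype.card (Fin k → Fin v)) * (((wt u : ℝ) / m) ^ 2 +
        (if digit β x = digit β x' then 1 else 0) * ((wt u : ℝ) / m - ((wt u : ℝ) / m) ^ 2)) := by
    intro β
    rw [← Finset.natCast_card_filter]
    have e : (univ.filter fun c : (Fin k → Fin v) → Fin m =>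
        u (c (digit β x)) = true ∧ u (c (digit β x')) = true) =
        (univ.filter fun c : (Fin k → Fin v) → Fin m =>
          ∀ d ∈ ({digit β x, digit β x'} : Finset (Fin k → Fin v)),
            c d ∈ (univ.filter fun a : Fin m => u a = true)) := by
      ext c
      simp
    rw [e, card_pi_mem hm]
    congr 1
    have hw : (((univ.filter fun a : Fin m => u a = true).card : ℕ) : ℝ) = (wt u : ℝ) := rfl
    rw [hw]
    by_cases hd : digit β x = digit β x'
    · rw [hd]; simp
    · rw [Finset.card_pair hd]; simp [hd]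
  simp only [h2]
  rw [← Finset.mul_sum, Finset.sum_add_distrib, ← Finset.sum_mul, ← Finset.natCast_card_filter]
  have h3 : (univ.filter fun β : Fin k → (Fin T × Fin T) × (Fin v → Fin v → Fin v) =>
      digit β x = digit β x') =
      (univ.filter fun β : Fin k → (Fin T × Fin T) × (Fin v → Fin v → Fin v) =>
        ∀ l, (β l).2 (x (β l).1.1) (x (β l).1.2) = (β l).2 (x' (β l).1.1) (x' (β l).1.2)) := by
    ext β
    simp only [mem_filter, mem_univ, true_and]
    unfold digit
    exact funext_iff
  rw [h3, card_pi_all k (fun a : (Fin T × Fin T) × (Fin v → Fin v → Fin v) =>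
    a.2 (x a.1.1) (x a.1.2) = a.2 (x' a.1.1) (x' a.1.2))]
  push_cast
  rw [card_dig hT hv]
  have h5 : (Fintype.card (Sc T v k m) : ℝ) =
      (Fintype.card ((Fin T × Fin T) × (Fin v → Fin v → Fin v)) : ℝ) ^ k *
        (m : ℝ) ^ (Fintype.card (Fin k → Fin v)) := by
    simp only [Fintype.card_prod, Fintype.card_pi, Finset.prod_const, Finset.card_univ,
      Fintype.card_fin]
    push_cast
    ring
  have h6 : (∑ _β : Fin k → (Fin T × Fin T) × (Fin v → Fin v → Fin v), ((wt u : ℝ) / m) ^ 2) =
      (Fintype.card ((Fin T × Fin T) × (Fin v → Fin v → Fin v)) : ℝ) ^ k * ((wt u : ℝ) / m) ^ 2 := by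
    rw [Finset.sum_const, Finset.card_univ, nsmul_eq_mul]
    simp only [Fintype.card_prod, Fintype.card_pi, Finset.prod_const, Finset.card_univ,
      Fintype.card_fin]
    push_cast
    ring
  rw [h5, h6]
  ring

lemma agr_self {T v : ℕ} (x : Fin T → Fin v) : (agr x x).card = T := by
  unfold agr; simp

lemma card_one {T v k m : ℕ} (hT : 0 < T) (hv : 0 < v) (hm : 0 < m) (u : Fin m → Bool)
    (x : Fin T → Fin v) :
    ((univ.filter fun β : Sc T v k m => u (β.2 (digit β.1 x)) = true).card : ℝ) =
      (Fintype.card (Sc T v k m) : ℝ) * ((wt u : ℝ) / m) := by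
  have h := card_both (k := k) hT hv hm u x x
  simp only [and_self, agr_self] at h
  rw [h]
  have hT0 : (T : ℝ) ≠ 0 := by exact_mod_cast hT.ne'
  have : qq T v T = 1 := by
    unfold qq
    rw [div_self hT0]; simp
  rw [this]; ring

lemma card_ok {T v k m M : ℕ} (hT : 0 < T) (hv : 0 < v) (hm : 0 < m) (u : Fin m → Bool)
    (x : Fin T → Fin v) :
    ((univ.filter fun b : Fin M → Sc T v k m => Ok u b x).card : ℝ) =
      (Fintype.card (Fin M → Sc T v k m) : ℝ) * ((wt u : ℝ) / m) ^ M := by
  have h1 : (univ.filter fun b : Fin M → Sc T v k m => Ok u b x).card =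
      (univ.filter fun β : Sc T v k m => u (β.2 (digit β.1 x)) = true).card ^ M := by
    refine Eq.trans ?_ (card_pi_all M (fun β : Sc T v k m => u (β.2 (digit β.1 x)) = true))
    apply congrArg Finset.card
    ext b
    simp only [mem_filter, mem_univ, true_and]
    exact Iff.rfl
  rw [h1]
  push_cast
  rw [card_one hT hv hm, mul_pow]
  congr 1
  rw [Fintype.card_pi_const]
  push_cast
  rfl

lemma card_ok2 {T v k m M : ℕ} (hT : 0 < T) (hv : 0 < v) (hm : 0 < m) (u : Fin m → Bool)
    (x x' : Fin T → Fin v) :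
    ((univ.filter fun b : Fin M → Sc T v k m => Ok u b x ∧ Ok u b x').card : ℝ) =
      (Fintype.card (Fin M → Sc T v k m) : ℝ) * (((wt u : ℝ) / m) ^ 2 +
        qq T v (agr x x').card ^ k * ((wt u : ℝ) / m - ((wt u : ℝ) / m) ^ 2)) ^ M := by
  have h1 : (univ.filter fun b : Fin M → Sc T v k m => Ok u b x ∧ Ok u b x').card =
      (univ.filter fun β : Sc T v k m =>
        u (β.2 (digit β.1 x)) = true ∧ u (β.2 (digit β.1 x')) = true).card ^ M := by
    refine Eq.trans ?_ (card_pi_all M (fun β : Sc T v k m =>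
      u (β.2 (digit β.1 x)) = true ∧ u (β.2 (digit β.1 x')) = true))
    apply congrArg Finset.card
    ext b
    simp only [mem_filter, mem_univ, true_and]
    unfold Ok
    exact forall_and.symm
  rw [h1]
  push_cast
  rw [card_both hT hv hm, mul_pow]
  congr 1
  rw [Fintype.card_pi_const]
  push_cast
  rfl

theorem t_M1 : Pool.Agent.W951.BP.S_M1 := by
  intro T v k m M hT hv hm u
  have h1 : (univ.filter fun b : Fin M → Sc T v k m => ∃ x, Ok u b x) ⊆
      (univ : Finset (Fin T → Fin v)).biUnion
        (fun x => univ.filter fun b : Fin M → Sc T v k m => Ok u b x) := by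
    intro b hb
    rw [mem_filter] at hb
    obtain ⟨x, hx⟩ := hb.2
    rw [mem_biUnion]
    exact ⟨x, mem_univ _, mem_filter.2 ⟨mem_univ _, hx⟩⟩
  have h2 := le_trans (Finset.card_le_card h1) Finset.card_biUnion_le
  have h3 : ((univ.filter fun b : Fin M → Sc T v k m => ∃ x, Ok u b x).card : ℝ) ≤
      ∑ x : Fin T → Fin v, ((univ.filter fun b : Fin M → Sc T v k m => Ok u b x).card : ℝ) := by
    exact_mod_cast h2
  refine le_trans h3 ?_
  simp_rw [card_ok hT hv hm]
  rw [Finset.sum_const, Finset.card_univ, nsmul_eq_mul, Fintype.card_pi_const, Fintype.card_fin]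
  push_cast
  apply le_of_eq
  ring

lemma sum_agr {T v : ℕ} (F : ℕ → ℝ) (x : Fin T → Fin v) (hv : 0 < v) :
    ∑ x' : Fin T → Fin v, F (agr x x').card =
      ∑ s ∈ range (T + 1), (T.choose s : ℝ) * ((v : ℝ) - 1) ^ (T - s) * F s := by
  have h1 : ∑ x' : Fin T → Fin v, F (agr x x').card =
      ∑ S ∈ (univ : Finset (Fin T)).powerset,
        ∑ x' ∈ (univ : Finset (Fin T → Fin v)).filter (fun x' => agr x x' = S),
          F (agr x x').card := by
    rw [Finset.sum_fiberwise_of_maps_to]
    intro x' _
    rw [mem_powerset]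
    exact subset_univ _
  rw [h1]
  have h2 : ∀ S ∈ (univ : Finset (Fin T)).powerset,
      ∑ x' ∈ (univ : Finset (Fin T → Fin v)).filter (fun x' => agr x x' = S),
          F (agr x x').card = ((v : ℝ) - 1) ^ (T - S.card) * F S.card := by
    intro S _
    have h3 : ∑ x' ∈ (univ : Finset (Fin T → Fin v)).filter (fun x' => agr x x' = S),
          F (agr x x').card =
        ∑ x' ∈ (univ : Finset (Fin T → Fin v)).filter (fun x' => agr x x' = S), F S.card := by
      apply Finset.sum_congr rfl
      intro x' hx'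
      rw [(mem_filter.1 hx').2]
    rw [h3, Finset.sum_const, nsmul_eq_mul]
    congr 1
    have h4 : (univ : Finset (Fin T → Fin v)).filter (fun x' => agr x x' = S) =
        Fintype.piFinset (fun t => if t ∈ S then {x t} else univ.erase (x t)) := by
      ext x'
      simp only [mem_filter, mem_univ, true_and, Fintype.mem_piFinset]
      unfold agr
      constructor
      · intro h t
        split_ifs with ht
        · rw [← h, mem_filter] at ht
          rw [mem_singleton]; exact ht.2.symm
        · rw [mem_erase]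
          refine ⟨fun hc => ht ?_, mem_univ _⟩
          rw [← h, mem_filter]
          exact ⟨mem_univ _, hc.symm⟩
      · intro h
        ext t
        rw [mem_filter]
        constructor
        · rintro ⟨-, h1⟩
          by_contra hc
          have := h t
          rw [if_neg hc, mem_erase] at this
          exact this.1 h1.symm
        · intro ht
          have := h t
          rw [if_pos ht, mem_singleton] at this
          exact ⟨mem_univ _, this.symm⟩
    rw [h4, Fintype.card_piFinset]
    push_cast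
    have h5 : ∀ t : Fin T, (((if t ∈ S then {x t} else univ.erase (x t) : Finset (Fin v)).card : ℕ) : ℝ)
        = if t ∈ S then 1 else ((v : ℝ) - 1) := by
      intro t
      split_ifs
      · simp
      · rw [Finset.card_erase_of_mem (mem_univ _), Finset.card_univ, Fintype.card_fin,
          Nat.cast_sub (by omega)]
        simp
    simp_rw [h5]
    rw [Finset.prod_ite]
    simp only [Finset.prod_const_one, one_mul, Finset.prod_const]
    congr 1
    have h6 : (univ.filter fun t : Fin T => ¬ t ∈ S) = Sᶜ := by ext t; simp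
    rw [h6, Finset.card_compl, Fintype.card_fin]
  rw [Finset.sum_congr rfl h2, Finset.sum_powerset_apply_card
    (fun s => ((v : ℝ) - 1) ^ (T - s) * F s)]
  simp only [Finset.card_univ, Fintype.card_fin, nsmul_eq_mul]
  apply Finset.sum_congr rfl
  intro s _
  ring

theorem t_M2 : Pool.Agent.W951.BP.S_M2 := by
  intro T v k m M hT hv hm u hu
  have hv0 : (0 : ℝ) < v := by exact_mod_cast hv
  have hm0 : (0 : ℝ) < m := by exact_mod_cast hm
  have hu0 : (0 : ℝ) < wt u := by exact_mod_cast hu
  set π : ℝ := (wt u : ℝ) / m with hπ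
  have hπ0 : 0 < π := by positivity
  set B : ℝ := (Fintype.card (Fin M → Sc T v k m) : ℝ) with hB
  set N : (Fin M → Sc T v k m) → ℝ := fun b =>
    ∑ x : Fin T → Fin v, (if Ok u b x then (1 : ℝ) else 0) with hN
  set μ : ℝ := (v : ℝ) ^ T * π ^ M with hμ
  have hμ0 : 0 < μ := by positivity
  -- first moment
  have hM1 : ∑ b, N b = B * μ := by
    rw [hN]
    simp only []
    rw [Finset.sum_comm]
    have : ∀ x : Fin T → Fin v, ∑ b : Fin M → Sc T v k m, (if Ok u b x then (1 : ℝ) else 0) =
        B * π ^ M := by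
      intro x
      rw [← Finset.natCast_card_filter]
      exact card_ok hT hv hm u x
    simp_rw [this]
    rw [Finset.sum_const, Finset.card_univ, nsmul_eq_mul, Fintype.card_pi_const, Fintype.card_fin,
      hμ]
    push_cast
    ring
  -- second moment
  set Q : ℝ := ∑ s ∈ range (T + 1), pr T v s * (1 + ((m : ℝ) / wt u - 1) * qq T v s ^ k) ^ M
    with hQ
  have hM2 : ∑ b, N b ^ 2 = B * μ ^ 2 * Q := by
    have e1 : ∀ b, N b ^ 2 = ∑ x : Fin T → Fin v, ∑ x' : Fin T → Fin v,
        (if Ok u b x ∧ Ok u b x' then (1 : ℝ) else 0) := by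
      intro b
      rw [hN]
      simp only []
      rw [sq, Finset.sum_mul_sum]
      apply Finset.sum_congr rfl
      intro x _
      apply Finset.sum_congr rfl
      intro x' _
      by_cases h1 : Ok u b x <;> by_cases h2 : Ok u b x' <;> simp [h1, h2]
    simp_rw [e1]
    rw [Finset.sum_comm]
    have e2 : ∀ x : Fin T → Fin v, ∑ b : Fin M → Sc T v k m, ∑ x' : Fin T → Fin v,
        (if Ok u b x ∧ Ok u b x' then (1 : ℝ) else 0) =
        B * π ^ (2 * M) * (v : ℝ) ^ T * Q := by
      intro x
      rw [Finset.sum_comm]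
      have e3 : ∀ x' : Fin T → Fin v, ∑ b : Fin M → Sc T v k m,
          (if Ok u b x ∧ Ok u b x' then (1 : ℝ) else 0) =
          (fun s : ℕ => B * (π ^ 2 + qq T v s ^ k * (π - π ^ 2)) ^ M) (agr x x').card := by
        intro x'
        rw [← Finset.natCast_card_filter]
        exact card_ok2 hT hv hm u x x'
      rw [Finset.sum_congr rfl (fun x' _ => e3 x')]
      rw [sum_agr (fun s : ℕ => B * (π ^ 2 + qq T v s ^ k * (π - π ^ 2)) ^ M) x hv, hQ,
        Finset.mul_sum]
      apply Finset.sum_congr rfl
      intro s _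
      have e4 : π ^ 2 + qq T v s ^ k * (π - π ^ 2) =
          π ^ 2 * (1 + ((m : ℝ) / wt u - 1) * qq T v s ^ k) := by
        have : (m : ℝ) / wt u = 1 / π := by rw [hπ]; field_simp
        rw [this]; field_simp
      rw [e4, mul_pow, ← pow_mul]
      unfold pr
      field_simp
    simp_rw [e2]
    rw [Finset.sum_const, Finset.card_univ, nsmul_eq_mul, Fintype.card_pi_const, Fintype.card_fin,
      hμ]
    push_cast
    ring
  -- Chebyshev
  have hvar : ∑ b, (N b - μ) ^ 2 = B * μ ^ 2 * (Q - 1) := by
    have : ∀ b, (N b - μ) ^ 2 = N b ^ 2 - 2 * μ * N b + μ ^ 2 := fun b => by ring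
    simp_rw [this]
    rw [Finset.sum_add_distrib, Finset.sum_sub_distrib, ← Finset.mul_sum, hM1, hM2,
      Finset.sum_const, Finset.card_univ, nsmul_eq_mul, ← hB]
    ring
  have hlow : ((univ.filter fun b : Fin M → Sc T v k m => ¬ ∃ x, Ok u b x).card : ℝ) * μ ^ 2 ≤
      ∑ b, (N b - μ) ^ 2 := by
    rw [← nsmul_eq_mul, ← Finset.sum_const]
    calc ∑ b ∈ (univ.filter fun b : Fin M → Sc T v k m => ¬ ∃ x, Ok u b x), μ ^ 2
        = ∑ b ∈ (univ.filter fun b : Fin M → Sc T v k m => ¬ ∃ x, Ok u b x), (N b - μ) ^ 2 := by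
          apply Finset.sum_congr rfl
          intro b hb
          have hb' := (mem_filter.1 hb).2
          have : N b = 0 := by
            rw [hN]
            simp only []
            apply Finset.sum_eq_zero
            intro x _
            rw [if_neg]
            intro hx
            exact hb' ⟨x, hx⟩
          rw [this]; ring
      _ ≤ ∑ b, (N b - μ) ^ 2 := by
          apply Finset.sum_le_sum_of_subset_of_nonneg (subset_univ _)
          intro b _ _
          positivity
  rw [hvar] at hlow
  have : ((univ.filter fun b : Fin M → Sc T v k m => ¬ ∃ x, Ok u b x).card : ℝ) * μ ^ 2 ≤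
      ((Q - 1) * B) * μ ^ 2 := by
    calc _ ≤ _ := hlow
      _ = _ := by ring
  exact le_of_mul_le_mul_right this (by positivity)

end Pool.Agent.W596.BP
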